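import Pool.Agent.W485.QL.Stm

/-! Project QL, part PP: trigonometric estimates for the model displacement. -/

set_option autoImplicit false

open Filter Topology Metric

namespace Pool.Agent.W91.QL

open Pool.Agent.W485.QL

lemma abs_sin_sub_self (t : ℝ) : |Real.sin t - t| ≤ t ^ 2 / 2 := by
  have key : ∀ t : ℝ, 0 < t → |Real.sin t - t| ≤ t ^ 2 / 2 := by
    intro t ht
    have h1 := Real.sin_lt ht
    have h2 := Real.sin_gt_sub_cube ht
    have h3 := Real.neg_one_le_sin t
    rw [abs_le]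
    constructor
    · by_cases h : t ≤ 3
      · nlinarith [mul_nonneg (sq_nonneg t) (sub_nonneg.mpr h)]
      · push Not at h
        nlinarith
    · nlinarith [sq_nonneg t]
  rcases lt_trichotomy t 0 with h | h | h
  · have h1 := key (-t) (by linarith)
    rw [Real.sin_neg] at h1
    have h2 : |Real.sin t - t| = |-Real.sin t - -t| := by
      rw [← abs_neg]; congr 1; ring
    rw [h2]
    nlinarith
  · subst h; simp
  · exact key t h

lemma abs_cos_sub_one (t : ℝ) : |Real.cos t - 1| ≤ t ^ 2 / 2 := by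
  have h1 := Real.one_sub_sq_div_two_le_cos (x := t)
  have h2 := Real.cos_le_one t
  rw [abs_le]
  constructor <;> nlinarith [sq_nonneg t]

lemma abs_cos_sub_one' (t : ℝ) : |Real.cos t - 1| ≤ |t| := by
  have h := Real.abs_cos_sub_cos_le t 0
  rwa [Real.cos_zero, sub_zero] at h

/-- second order estimate for the sine -/
lemma sin_second (a b : ℝ) : |Real.sin a - Real.sin b - Real.cos b * (a - b)| ≤ (a - b) ^ 2 := by
  set t := a - b with ht
  have ha : a = b + t := by rw [ht]; ring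
  rw [ha, Real.sin_add]
  have h1 : Real.sin b * Real.cos t + Real.cos b * Real.sin t - Real.sin b - Real.cos b * t
      = Real.sin b * (Real.cos t - 1) + Real.cos b * (Real.sin t - t) := by ring
  rw [h1]
  refine (abs_add_le _ _).trans ?_
  rw [abs_mul, abs_mul]
  have h2 := abs_cos_sub_one t
  have h3 := abs_sin_sub_self t
  have h4 := Real.abs_sin_le_one b
  have h5 := Real.abs_cos_le_one b
  have h6 := mul_le_mul h4 h2 (abs_nonneg _) zero_le_one
  have h7 := mul_le_mul h5 h3 (abs_nonneg _) zero_le_one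
  linarith

lemma sin_second' (a b : ℝ) : |Real.sin a - Real.sin b - (a - b)| ≤ 2 * (|a - b| * (|a| + |b|)) := by
  have h1 : Real.sin a - Real.sin b - (a - b) =
    (Real.sin a - Real.sin b - Real.cos b * (a - b)) + (Real.cos b - 1) * (a - b) := by ring
  rw [h1]
  refine (abs_add_le _ _).trans ?_
  rw [abs_mul]
  have h2 := sin_second a b
  have h3 := abs_cos_sub_one' b
  have h4 := mul_le_mul_of_nonneg_right h3 (abs_nonneg (a - b))
  have h5 : (a - b) ^ 2 = |a - b| * |a - b| := by rw [← sq_abs]; ring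
  have h6 : |a - b| ≤ |a| + |b| := abs_sub a b
  have h7 := mul_le_mul_of_nonneg_left h6 (abs_nonneg (a - b))
  have h8 := mul_nonneg (abs_nonneg (a - b)) (abs_nonneg a)
  rw [h5] at h2
  nlinarith

lemma cos_first (a b : ℝ) : |Real.cos a - Real.cos b| ≤ |a - b| * (|a| + |b|) := by
  rw [Real.cos_sub_cos, abs_mul, abs_mul]
  have h1 : |Real.sin ((a + b) / 2)| ≤ |(a + b) / 2| := Real.abs_sin_le_abs
  have h2 : |Real.sin ((a - b) / 2)| ≤ |(a - b) / 2| := Real.abs_sin_le_abs
  have h3 := mul_le_mul h1 h2 (abs_nonneg _) (abs_nonneg _)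
  rw [abs_div, abs_div, abs_of_pos (by norm_num : (0 : ℝ) < 2)] at h3
  have h4 : |(-2 : ℝ)| = 2 := by norm_num
  rw [h4]
  have h5 : |a + b| ≤ |a| + |b| := abs_add_le a b
  have h6 := mul_le_mul_of_nonneg_left h5 (abs_nonneg (a - b))
  have h7 := mul_nonneg (abs_nonneg (a - b)) (add_nonneg (abs_nonneg a) (abs_nonneg b))
  nlinarith

/-- norm of a combination of two real numbers -/
lemma nrm1 (a b : ℝ) : ‖(a : ℂ) - Complex.I * (b : ℂ)‖ ≤ |a| + |b| := by
  refine (norm_sub_le _ _).trans ?_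
  rw [norm_mul, Complex.norm_I, one_mul, Complex.norm_real, Complex.norm_real]
  rfl

lemma nrm2 (a b : ℝ) : ‖-Complex.I * (a : ℂ) - (b : ℂ)‖ ≤ |a| + |b| := by
  refine (norm_sub_le _ _).trans ?_
  rw [norm_mul, norm_neg, Complex.norm_I, one_mul, Complex.norm_real, Complex.norm_real]
  rfl

lemma epe : ep = 1 / 120 := rfl

lemma U_bd (y : ℝ) : ‖U y‖ ≤ 1 / 115 := by
  unfold U
  refine (nrm1 _ _).trans ?_
  rw [abs_mul, abs_mul, epe]
  have h1 := Real.abs_sin_le_one y
  have h2 := Real.abs_sin_le_one (2 * y)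
  have e1 : |(1 / 120 : ℝ)| = 1 / 120 := by norm_num
  have e2 : |((1 / 120 : ℝ) ^ 2 / 8)| = 1 / 115200 := by norm_num
  rw [e1, e2]
  nlinarith

lemma W_bd (y : ℝ) : ‖W y‖ ≤ 1 / 115 := by
  unfold W
  refine (nrm2 _ _).trans ?_
  rw [abs_mul, abs_mul, epe]
  have h1 := Real.abs_cos_le_one y
  have h2 := Real.abs_cos_le_one (2 * y)
  have e1 : |(1 / 120 : ℝ)| = 1 / 120 := by norm_num
  have e2 : |((1 / 120 : ℝ) ^ 2 / 4)| = 1 / 57600 := by norm_num
  rw [e1, e2]
  nlinarith

lemma U_lip (y y' : ℝ) : ‖U y - U y'‖ ≤ 1 / 115 * |y - y'| := by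
  have h0 : U y - U y' = ((ep * (Real.sin y - Real.sin y') : ℝ) : ℂ) -
      Complex.I * ((ep ^ 2 / 8 * (Real.sin (2 * y) - Real.sin (2 * y')) : ℝ) : ℂ) := by
    unfold U; push_cast; ring
  rw [h0]
  refine (nrm1 _ _).trans ?_
  rw [abs_mul, abs_mul, epe]
  have h1 := Real.abs_sin_sub_sin_le y y'
  have h2 := Real.abs_sin_sub_sin_le (2 * y) (2 * y')
  have h3 : |2 * y - 2 * y'| = 2 * |y - y'| := by
    rw [← mul_sub, abs_mul, abs_of_pos (by norm_num : (0 : ℝ) < 2)]
  rw [h3] at h2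
  have e1 : |(1 / 120 : ℝ)| = 1 / 120 := by norm_num
  have e2 : |((1 / 120 : ℝ) ^ 2 / 8)| = 1 / 115200 := by norm_num
  rw [e1, e2]
  have := abs_nonneg (y - y')
  nlinarith

lemma W_lip (y y' : ℝ) : ‖W y - W y'‖ ≤ 1 / 115 * |y - y'| := by
  have h0 : W y - W y' = -Complex.I * ((ep * (Real.cos y - Real.cos y') : ℝ) : ℂ) -
      ((ep ^ 2 / 4 * (Real.cos (2 * y) - Real.cos (2 * y')) : ℝ) : ℂ) := by
    unfold W; push_cast; ring
  rw [h0]
  refine (nrm2 _ _).trans ?_
  rw [abs_mul, abs_mul, epe]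
  have h1 := Real.abs_cos_sub_cos_le y y'
  have h2 := Real.abs_cos_sub_cos_le (2 * y) (2 * y')
  have h3 : |2 * y - 2 * y'| = 2 * |y - y'| := by
    rw [← mul_sub, abs_mul, abs_of_pos (by norm_num : (0 : ℝ) < 2)]
  rw [h3] at h2
  have e1 : |(1 / 120 : ℝ)| = 1 / 120 := by norm_num
  have e2 : |((1 / 120 : ℝ) ^ 2 / 4)| = 1 / 57600 := by norm_num
  rw [e1, e2]
  have := abs_nonneg (y - y')
  nlinarith

/-- `U' = I W` -/
lemma U_second (y y' : ℝ) :
    ‖U y - U y' - Complex.I * W y' * ((y - y' : ℝ) : ℂ)‖ ≤ 1 / 115 * |y - y'| ^ 2 := by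
  have h0 : U y - U y' - Complex.I * W y' * ((y - y' : ℝ) : ℂ) =
      ((ep * (Real.sin y - Real.sin y' - Real.cos y' * (y - y')) : ℝ) : ℂ) -
      Complex.I * ((ep ^ 2 / 8 * (Real.sin (2 * y) - Real.sin (2 * y') -
        Real.cos (2 * y') * (2 * y - 2 * y')) : ℝ) : ℂ) := by
    unfold U W; push_cast; ring_nf; rw [Complex.I_sq]; ring
  rw [h0]
  refine (nrm1 _ _).trans ?_
  rw [abs_mul, abs_mul, epe]
  have h1 := sin_second y y'
  have h2 := sin_second (2 * y) (2 * y')
  have h3 : |y - y'| ^ 2 = (y - y') ^ 2 := sq_abs _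
  rw [h3]
  have e1 : |(1 / 120 : ℝ)| = 1 / 120 := by norm_num
  have e2 : |((1 / 120 : ℝ) ^ 2 / 8)| = 1 / 115200 := by norm_num
  rw [e1, e2]
  have := sq_nonneg (y - y')
  nlinarith

lemma nmul (a : ℝ) (z : ℂ) : ‖(a : ℂ) * z‖ = |a| * ‖z‖ := by
  rw [norm_mul, Complex.norm_real]; rfl

theorem t_PP : PP where
  bdd := by
    intro x y
    unfold P
    refine (norm_add_le _ _).trans ?_
    rw [nmul, nmul]
    have h1 := mul_le_mul (Real.abs_cos_le_one x) (U_bd y) (norm_nonneg _) zero_le_one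
    have h2 := mul_le_mul (Real.abs_sin_le_one x) (W_bd y) (norm_nonneg _) zero_le_one
    linarith
  lip := by
    intro x y x' y'
    have h0 : P x y - P x' y' = (((Real.cos x - Real.cos x' : ℝ) : ℂ) * U y +
        ((Real.cos x' : ℝ) : ℂ) * (U y - U y')) + (((Real.sin x - Real.sin x' : ℝ) : ℂ) * W y +
        ((Real.sin x' : ℝ) : ℂ) * (W y - W y')) := by
      unfold P; push_cast; ring
    rw [h0]
    refine (norm_add_le _ _).trans ?_
    refine (add_le_add (norm_add_le _ _) (norm_add_le _ _)).trans ?_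
    rw [nmul, nmul, nmul, nmul]
    have h1 := mul_le_mul (Real.abs_cos_sub_cos_le x x') (U_bd y) (norm_nonneg _) (abs_nonneg _)
    have h2 := mul_le_mul (Real.abs_cos_le_one x') (U_lip y y') (norm_nonneg _) zero_le_one
    have h3 := mul_le_mul (Real.abs_sin_sub_sin_le x x') (W_bd y) (norm_nonneg _) (abs_nonneg _)
    have h4 := mul_le_mul (Real.abs_sin_le_one x') (W_lip y y') (norm_nonneg _) zero_le_one
    have h5 := abs_nonneg (x - x')
    have h6 := abs_nonneg (y - y')
    linarith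
  per := by
    intro x y j
    unfold P
    have h1 : x - 2 * Real.pi * (j : ℝ) = x - (j : ℝ) * (2 * Real.pi) := by ring
    rw [h1, Real.cos_sub_int_mul_two_pi, Real.sin_sub_int_mul_two_pi]
  err := by
    intro x y x' y'
    have h0 : P x y - P x' y' - W y' * (((x - x' : ℝ) : ℂ) + Complex.I * ((y - y' : ℝ) : ℂ)) =
        (((Real.cos x - Real.cos x' : ℝ) : ℂ) * U y +
        ((Real.cos x' - 1 : ℝ) : ℂ) * (U y - U y')) +
        ((U y - U y' - Complex.I * W y' * ((y - y' : ℝ) : ℂ)) +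
        ((Real.sin x - Real.sin x' - (x - x') : ℝ) : ℂ) * W y) +
        (((x - x' : ℝ) : ℂ) * (W y - W y') + ((Real.sin x' : ℝ) : ℂ) * (W y - W y')) := by
      unfold P; push_cast; ring
    rw [h0]
    refine (norm_add_le _ _).trans ?_
    refine (add_le_add (norm_add_le _ _) (norm_add_le _ _)).trans ?_
    refine (add_le_add (add_le_add (norm_add_le _ _) (norm_add_le _ _)) le_rfl).trans ?_
    rw [nmul, nmul, nmul, nmul, nmul]
    have n1 := abs_nonneg (x - x')
    have n2 := abs_nonneg (y - y')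
    have n3 := abs_nonneg x
    have n4 := abs_nonneg x'
    have h1 := mul_le_mul (cos_first x x') (U_bd y) (norm_nonneg _)
      (mul_nonneg n1 (add_nonneg n3 n4))
    have h2 := mul_le_mul (abs_cos_sub_one' x') (U_lip y y') (norm_nonneg _) n4
    have h3 := U_second y y'
    have h4 := mul_le_mul (sin_second' x x') (W_bd y) (norm_nonneg _)
      (mul_nonneg (by norm_num) (mul_nonneg n1 (add_nonneg n3 n4)))
    have h5 := mul_le_mul_of_nonneg_left (W_lip y y') n1
    have h6 := mul_le_mul (Real.abs_sin_le_abs (x := x')) (W_lip y y') (norm_nonneg _) n4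
    have m1 := mul_nonneg n1 n2
    have m2 := mul_nonneg n1 n3
    have m3 := mul_nonneg n1 n4
    have m4 := mul_nonneg n2 n3
    have m5 := mul_nonneg n2 n4
    have m6 := mul_nonneg n2 n2
    nlinarith
  big := by
    intro y
    have h1 : (1 + 1 / 100000 : ℝ) ^ 2 ≤ ‖1 + W y‖ ^ 2 := by
      rw [← Complex.normSq_eq_norm_sq, Complex.normSq_apply]
      have hre : (1 + W y).re = 1 - ep ^ 2 / 4 * Real.cos (2 * y) := by
        unfold W
        simp only [Complex.add_re, Complex.one_re, Complex.sub_re, Complex.mul_re, Complex.neg_re,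
          Complex.I_re, Complex.ofReal_re, Complex.neg_im, Complex.I_im, Complex.ofReal_im]
        ring
      have him : (1 + W y).im = -(ep * Real.cos y) := by
        unfold W
        simp only [Complex.add_im, Complex.one_im, Complex.sub_im, Complex.mul_im, Complex.neg_re,
          Complex.I_re, Complex.ofReal_re, Complex.neg_im, Complex.I_im, Complex.ofReal_im]
        ring
      rw [hre, him, Real.cos_two_mul, epe]
      nlinarith [sq_nonneg (2 * Real.cos y ^ 2 - 1), sq_nonneg (Real.cos y)]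
    exact le_of_sq_le_sq h1 (norm_nonneg _)

end Pool.Agent.W91.QL
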